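import Pool.Agent.helper70.NZ.SpecC
import Pool.Agent.helper59.FI.Base

/-!
# MP_baa4d7_al, THEOREM NZ, row YNL: the local blocks (port of NE.YNL and of ZD.TDL)
-/

set_option autoImplicit false

namespace Pool.Agent.ND.NY.E

open Pool.Agent.helper58.DC Pool.Agent.DI Pool.Agent.GR Pool.Agent.OB Pool.Agent.DR Pool.Agent.FI Pool.Agent.FI3 Pool.Agent.FI4 Pool.Agent.FI4I Pool.Agent.LE Pool.Agent.L5 Pool.Agent.NAB Pool.Agent.NE
open Pool.Agent.ZB (Pm Om KZ EQ BQ lQ MZc BDK)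

theorem YNL_cnt {α : Type} {S : Set α} (hS : S.Finite) (P : α → Prop) [DecidablePred P] :
    ∑ᶠ a ∈ S, (if P a then (1 : ℂ) else 0) = (({a | a ∈ S ∧ P a}.ncard : ℕ) : ℂ) := by
  classical
  rw [finsum_mem_eq_finite_toFinset_sum _ hS, Finset.sum_boole]
  congr 1
  rw [← Set.ncard_coe_finset]
  congr 1
  ext a
  simp

/-- iterated sums -/
theorem YNL_iter {α γ : Type} (X : α → Set γ) (v : α × γ → ℂ)
    (hfin : ({b : α × γ | b.2 ∈ X b.1}).Finite) :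
    ∑ᶠ b ∈ {b : α × γ | b.2 ∈ X b.1}, v b = ∑ᶠ i, ∑ᶠ y ∈ X i, v (i, y) := by
  classical
  rw [finsum_mem_def, finsum_curry]
  · apply finsum_congr
    intro i
    rw [finsum_mem_def]
    apply finsum_congr
    intro y
    by_cases h : y ∈ X i
    · have h' : (i, y) ∈ {b : α × γ | b.2 ∈ X b.1} := h
      rw [Set.indicator_of_mem h, Set.indicator_of_mem h']
    · have h' : (i, y) ∉ {b : α × γ | b.2 ∈ X b.1} := h
      rw [Set.indicator_of_notMem h, Set.indicator_of_notMem h']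
  · exact hfin.subset Set.support_indicator_subset

theorem YNL_cjF {G : Type} [Group G] (l : G) (η : G → ℂ) : cjF l η 1 = η 1 := by
  rw [cjF_apply]
  congr 1
  group

theorem YNL_nz {G : Type} [Group G] (g : G) (E : Subgroup G) : nz (cj g E) = cj g (nz E) := by
  ext x
  rw [← cj_nz, mem_cj, ← cj_nz, ← cj_mul]
  have h1 : cj (g⁻¹ * x * g) E = cj g⁻¹ (cj (x * g) E) := by
    rw [← cj_mul, mul_assoc]
  rw [h1]
  constructor
  · intro h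
    rw [h, cj_inv_cj]
  · intro h
    have h2 : cj g (cj g⁻¹ (cj (x * g) E)) = cj g E := by rw [h]
    rwa [← cj_mul, mul_inv_cancel, cj_one] at h2

theorem YNL_inf {G : Type} [Group G] (g : G) (A B : Subgroup G) : cj g (A ⊓ B) = cj g A ⊓ cj g B := by
  ext x
  rw [mem_cj, Subgroup.mem_inf, Subgroup.mem_inf, mem_cj, mem_cj]

/-- the weight -/
def YNL_P {G : Type} [Group G] (p : ℕ) (G₀ Δ : Subgroup G) (d : ℤ) (E' : Subgroup G) (η : G → ℂ) : Prop :=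
  Defect p (Δ ⊓ G₀ ⊓ nz E') η d ∧ (∀ κ ∈ Δ ⊓ nz E', cjF κ η = η) ∧ (Δ ⊓ nz E') ⊔ G₀ = ⊤

theorem YNL_P1 {G : Type} [Group G] {p : ℕ} {G₀ Δ : Subgroup G} (h₀ : G₀.Normal) {d : ℤ} {l : G} (hl : l ∈ Δ)
    {E' : Subgroup G} {η : G → ℂ} (h : YNL_P p G₀ Δ d E' η) : YNL_P p G₀ Δ d (cj l E') (funMap (MulAut.conj l) η) := by
  obtain ⟨h1, h2, h3⟩ := h
  have hΔ : cj l Δ = Δ := cj_self hl
  have hG : cj l G₀ = G₀ := by
    rw [cj_nz, nz, Subgroup.normalizer_eq_top (H := G₀)]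
    exact Subgroup.mem_top l
  have e1 : Δ ⊓ nz (cj l E') = cj l (Δ ⊓ nz E') := by
    rw [YNL_inf, hΔ, YNL_nz]
  have e2 : Δ ⊓ G₀ ⊓ nz (cj l E') = cj l (Δ ⊓ G₀ ⊓ nz E') := by
    rw [YNL_inf, YNL_inf, hΔ, hG, YNL_nz]
  refine ⟨?_, ?_, ?_⟩
  · rw [e2]
    unfold Defect at h1 ⊢
    have h7 : funMap (MulAut.conj l) η 1 = η 1 := YNL_cjF l η
    rw [card_cj, h7]
    exact h1
  · intro κ hκ
    rw [e1, mem_cj] at hκ
    have h4 := h2 _ hκ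
    change funMap (MulAut.conj κ) (funMap (MulAut.conj l) η) = funMap (MulAut.conj l) η
    change funMap (MulAut.conj (l⁻¹ * κ * l)) η = η at h4
    rw [← funMap_mul]
    have h5 : κ * l = l * (l⁻¹ * κ * l) := by group
    rw [h5, funMap_mul, h4]
  · rw [e1]
    have h4 : cj l ((Δ ⊓ nz E') ⊔ G₀) = cj l (Δ ⊓ nz E') ⊔ cj l G₀ := by
      unfold cj
      exact Subgroup.map_sup _ _ _
    rw [h3, cj_top, hG] at h4
    exact h4.symm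

theorem YNL_P2 {G : Type} [Group G] {p : ℕ} {G₀ Δ : Subgroup G} (h₀ : G₀.Normal) {d : ℤ} {l : G} (hl : l ∈ Δ)
    (E' : Subgroup G) (η : G → ℂ) : YNL_P p G₀ Δ d (cj l E') (funMap (MulAut.conj l) η) ↔ YNL_P p G₀ Δ d E' η := by
  constructor
  · intro h
    have h1 := YNL_P1 h₀ (Δ.inv_mem hl) h
    rw [cj_inv_cj, ← funMap_mul, inv_mul_cancel, funMap_one'] at h1
    exact h1
  · exact YNL_P1 h₀ hl

theorem YNL (hXPB : Pool.Agent.NAB.XPB_stmt) (hYNC : YNC_stmt) (hYTD : YTD_stmt) (hNUH : Pool.Agent.ND.NY.NUH_stmt)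
    (hZUX : Pool.Agent.ZB.ZUX_stmt) (hZE1 : Pool.Agent.ZB.ZE1_stmt)
    (hTRN : Pool.Agent.FI.TRN_stmt) (hB2 : B2_stmt) : YNL_stmt := by
  classical
  intro p e m M hM h1e h2e G _ _ G₀ h₀ χ₀ hχ₀ z x hU d Δ hloc
  by_cases hT : Δ ⊔ G₀ = ⊤
  swap
  · have h1 : hB p M G₀ χ₀ d Δ = 0 := by
      unfold hB
      rw [if_neg hT]
    have h2 : ∀ E' : Subgroup G, hE p m M G₀ χ₀ d E' (Δ ⊓ nz E') = 0 := by
      intro E'
      unfold hE
      rw [if_neg]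
      intro h
      apply hT
      rw [eq_top_iff] at h ⊢
      exact h.trans (sup_le_sup_right inf_le_left _)
    rw [h1]
    simp [h2]
  set N : Subgroup G := Δ ⊓ G₀ with hN
  have hNG : N ≤ G₀ := inf_le_right
  have hNΔ : N ≤ Δ := inf_le_left
  have hΔN : Δ ≤ nz N := by
    intro δ hδ
    rw [← cj_nz, hN, YNL_inf, cj_self hδ]
    congr 1
    rw [cj_nz, nz, Subgroup.normalizer_eq_top (H := G₀)]
    exact Subgroup.mem_top δ
  have hvan : ∀ (K : Subgroup G) (φ : G → ℂ), φ ∈ IrrOn K → K ≤ N → ∀ x, x ∉ N → φ x = 0 :=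
    fun K φ hφ hK x hx => hφ.1 x fun h => hx (hK h)
  have htr : ∀ (K : Subgroup G) (φ ψ : G → ℂ), φ ∈ IrrOn K → K ≤ N → ψ ∈ IrrOn N → SB M N φ ψ →
      (SB M G₀ ψ χ₀ ↔ SB M G₀ φ χ₀) := fun K φ ψ hφ hK hψ h =>
    (hTRN G M N G₀ hNG φ ψ χ₀ (hvan K φ hφ hK) (hvan N ψ hψ le_rfl) h).2
  set A : Set (G → ℂ) := {φ | φ ∈ IrrOn N ∧ SB M G₀ φ χ₀} with hA
  set B : Set (Subgroup G × (G → ℂ)) :=
    {b | b.2 ∈ BQ p m M G₀ (N ⊓ nz b.1) b.1 χ₀} with hBd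
  have hfinI : ∀ K : Subgroup G, (IrrOn K).Finite := fun K => (hB2 G K).1
  have hfin : ∀ (L : Subgroup G) (ψ : G → ℂ),
      ({b : Subgroup G × (G → ℂ) | b.2 ∈ BQ p m M L (N ⊓ nz b.1) b.1 ψ}).Finite := by
    intro L ψ
    apply ((Set.finite_univ (α := Subgroup G)).prod
      (Set.finite_iUnion fun E' : Subgroup G => hfinI (N ⊓ nz E'))).subset
    rintro ⟨E', η⟩ hη
    exact ⟨trivial, Set.mem_iUnion.2 ⟨E', hη.1⟩⟩
  have hAfin : A.Finite := (hfinI N).subset fun φ hφ => hφ.1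
  -- the classes of `N`
  have hcl : ∀ φ ∈ A, {φ' | φ' ∈ A ∧ SB M N φ φ'} = Bl M N φ := by
    intro φ hφ
    ext ψ
    constructor
    · rintro ⟨h1, h2⟩
      exact ⟨h1.1, h2.symm⟩
    · rintro ⟨h1, h2⟩
      exact ⟨⟨h1, (htr N φ ψ hφ.1 le_rfl h1 h2.symm).2 hφ.2⟩, h2.symm⟩
  have hBE : ∀ (K : Subgroup G) (L E' : Subgroup G) (ψ : G → ℂ), (BQ p m M L K E' ψ).Finite :=
    fun K L E' ψ => (hfinI K).subset fun η hη => hη.1
  have key := hXPB (G → ℂ) (Subgroup G × (G → ℂ)) A B hAfin (hfin G₀ χ₀)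
    (fun φ => if (Defect p N φ d ∧ ∀ δ ∈ Δ, cjF δ φ = φ) then (1 : ℂ) else 0)
    (fun b => (Nat.card (N ⊓ nz b.1 : Subgroup G) : ℂ) * if YNL_P p G₀ Δ d b.1 b.2 then (1 : ℂ) else 0)
    (Nat.card N : ℂ) (fun φ φ' => SB M N φ φ') (fun b φ => SB M N b.2 φ) ?_ ?_ ?_ ?_ ?_ ?_
  · have e1 : (hB p M G₀ χ₀ d Δ : ℂ) = (Nat.card N : ℂ) *
        ∑ᶠ φ ∈ A, (if (Defect p N φ d ∧ ∀ δ ∈ Δ, cjF δ φ = φ) then (1 : ℂ) else 0) := by
      unfold hB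
      rw [if_pos hT, YNL_cnt hAfin]
      push_cast
      congr 3
      ext φ
      constructor
      · rintro ⟨h1, h2, h3, h4⟩
        exact ⟨⟨h1, h2⟩, h3, h4⟩
      · rintro ⟨⟨h1, h2⟩, h3, h4⟩
        exact ⟨h1, h2, h3, h4⟩
    rw [e1, ← key, hBd, YNL_iter (fun E' => BQ p m M G₀ (N ⊓ nz E') E' χ₀) _ (hfin G₀ χ₀)]
    apply finsum_congr
    intro E'
    have e2 : (Δ ⊓ nz E') ⊓ G₀ = N ⊓ nz E' := by
      rw [hN, inf_right_comm]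
    have e4 : ∑ᶠ y ∈ BQ p m M G₀ (N ⊓ nz E') E' χ₀, ((Nat.card (N ⊓ nz E' : Subgroup G) : ℂ) *
        if YNL_P p G₀ Δ d E' y then (1 : ℂ) else 0) = (Nat.card (N ⊓ nz E' : Subgroup G) : ℂ) *
        ∑ᶠ y ∈ BQ p m M G₀ (N ⊓ nz E') E' χ₀, (if YNL_P p G₀ Δ d E' y then (1 : ℂ) else 0) := by
      rw [mul_finsum_mem]
    unfold hE
    change ∑ᶠ y ∈ BQ p m M G₀ (N ⊓ nz E') E' χ₀, ((Nat.card (N ⊓ nz E' : Subgroup G) : ℂ) *
        if YNL_P p G₀ Δ d E' y then (1 : ℂ) else 0) = _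
    rw [e2, e4, YNL_cnt (hBE _ _ _ _)]
    by_cases hE' : (Δ ⊓ nz E') ⊔ G₀ = ⊤
    · rw [if_pos hE']
      push_cast
      congr 3
      ext η
      constructor
      · rintro ⟨h1, h2, h3, -⟩
        exact ⟨h1, h2, h3⟩
      · rintro ⟨h1, h2, h3⟩
        exact ⟨h1, h2, h3, hE'⟩
    · rw [if_neg hE']
      have e3 : {a | a ∈ BQ p m M G₀ (N ⊓ nz E') E' χ₀ ∧ YNL_P p G₀ Δ d E' a} = ∅ := by
        apply Set.eq_empty_of_forall_notMem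
        rintro a ⟨-, -, -, h⟩
        exact hE' h
      rw [e3, Set.ncard_empty]
      simp
  · rintro ⟨E', η⟩ ⟨h1, h2, Q, y, h3, h4, h5⟩
    have he := hZE1 p hM.1 m G Q h4
    have h5 : EQ p m.s Q = E' := h5
    have hQ : Q ≤ N := fun q hq => ((h3.le hq).1).1
    have hE' : E' ≤ N := by
      rw [← h5]
      exact he.2.1.2.1.trans hQ
    have hEp : IsPGroup p E' := by
      rw [← h5]
      exact he.2.1.2.2.2.1
    obtain ⟨ψ, hψ, h6⟩ := hZUX p M hM G N E' hEp hE' η h1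
    exact ⟨ψ, ⟨hψ, (htr (N ⊓ nz E') η ψ h1 inf_le_left hψ h6).2 h2⟩, h6⟩
  · intro φ
    exact SB.refl N φ
  · intro φ φ' h
    exact h.symm
  · intro φ φ' φ'' h h'
    exact h.trans h'
  · intro b _ φ _ φ' _ h
    exact ⟨fun h' => h.symm.trans h', fun h' => h.trans h'⟩
  · intro φ hφ
    obtain ⟨l, -, hl⟩ := hNUH p e m M hM G G₀ N hNG φ hφ.1 χ₀ hχ₀ z x hφ.2 hU
      (fun Q y hQ => le_inf (hloc φ hφ.1 Q y hQ) inf_le_left)
    set z' : G := l * z * l⁻¹ with hz'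
    have h2 := hYTD p e m M hM G N φ hφ.1 _ _ hl (fun E' η => if YNL_P p G₀ Δ d E' η then (1 : ℂ) else 0)
      (fun l hl E' η => by
        have h0 := YNL_P2 (p := p) (d := d) h₀ (hNΔ hl) E' η
        change (if YNL_P p G₀ Δ d (cj l E') (funMap (MulAut.conj l) η) then (1 : ℂ) else 0) = if YNL_P p G₀ Δ d E' η then (1 : ℂ) else 0
        simp only [h0])
    have h1 := hYNC p e m M hM h1e h2e G N φ hφ.1 _ _ hl Δ hNΔ hΔN d
    have h3 : {b | b ∈ B ∧ SB M N b.2 φ} =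
        {b : Subgroup G × (G → ℂ) | b.2 ∈ BQ p m M N (N ⊓ nz b.1) b.1 φ} := by
      ext b
      constructor
      · rintro ⟨⟨h4, h5, h6⟩, h7⟩
        exact ⟨h4, h7, h6⟩
      · rintro ⟨h4, h5, h6⟩
        exact ⟨⟨h4, (htr _ b.2 φ h4 inf_le_left hφ.1 h5).1 hφ.2, h6⟩, h5⟩
    have hiff : Δ ≤ N ⊔ (Δ ⊓ nz (Eg p e z')) ↔ (Δ ⊓ nz (Eg p e z')) ⊔ G₀ = ⊤ := by
      constructor
      · intro h
        rw [eq_top_iff, ← hT]
        refine sup_le ?_ le_sup_right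
        exact h.trans (sup_le (hNG.trans le_sup_right) le_sup_left)
      · intro h δ hδ
        have hδ' : δ ∈ (Δ ⊓ nz (Eg p e z')) ⊔ G₀ := by rw [h]; exact Subgroup.mem_top δ
        obtain ⟨κ, hκ, g, hg, hkg⟩ := Subgroup.mem_sup_of_normal_right.1 hδ'
        have hg' : g ∈ Δ := by
          have : g = κ⁻¹ * δ := by rw [← hkg]; group
          rw [this]
          exact Δ.mul_mem (Δ.inv_mem hκ.1) hδ
        rw [← hkg]
        exact Subgroup.mul_mem _ ((le_sup_right : _ ≤ N ⊔ (Δ ⊓ nz (Eg p e z'))) hκ)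
          ((le_sup_left : _ ≤ N ⊔ (Δ ⊓ nz (Eg p e z'))) ⟨hg', hg⟩)
    show ∑ᶠ b ∈ {b | b ∈ B ∧ SB M N b.2 φ},
      ((Nat.card (N ⊓ nz b.1 : Subgroup G) : ℂ) * if YNL_P p G₀ Δ d b.1 b.2 then (1 : ℂ) else 0) =
        (Nat.card N : ℂ) * ∑ᶠ a' ∈ {a' | a' ∈ A ∧ SB M N φ a'}, (if (Defect p N a' d ∧ ∀ δ ∈ Δ, cjF δ a' = a') then (1 : ℂ) else 0)
    have h6 : ∑ᶠ a' ∈ Bl M N φ, (if (Defect p N a' d ∧ ∀ δ ∈ Δ, cjF δ a' = a') then (1 : ℂ) else 0) =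
        ∑ᶠ η ∈ BQ p m M N (N ⊓ nz (Eg p e z')) (Eg p e z') φ, (if YNL_P p G₀ Δ d (Eg p e z') η then (1 : ℂ) else 0) := by
      rw [YNL_cnt ((hfinI N).subset fun η hη => hη.1), YNL_cnt (hBE _ _ _ _), h1]
      congr 2
      ext η
      constructor
      · rintro ⟨h1, h2, h3, h4⟩
        exact ⟨h1, h2, h3, hiff.1 h4⟩
      · rintro ⟨h1, h2, h3, h4⟩
        exact ⟨h1, h2, h3, hiff.2 h4⟩
    rw [hcl φ hφ, h6, ← h2, h3, YNL_iter (fun E' => BQ p m M N (N ⊓ nz E') E' φ) _ (hfin N φ)]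
    apply finsum_congr
    intro E'
    rw [mul_finsum_mem]

end Pool.Agent.ND.NY.E
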